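import Pool.Agent.Y529.WK.Sep
import Pool.Agent.Results.MP_906480_an.NoBasis
import Pool.Agent.Results.MP_605a0d_an.NoSchauder

/-!
# Spaces of continuous functions without a basis whose duals have a weak star basis
-/

set_option autoImplicit false

namespace Pool.Agent.Results.MP_906480_an.ContinuousFunctions

open Filter Topology BoundedContinuousFunction Pool.Agent.Y529.WK
open Pool.Agent.Results.MP_906480_an.NoBasis (tendsto_iff separable_of_basis)
open Pool.Agent.Results.MP_605a0d_an.NoSchauder (separable_of_schauder)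

/-- `x` is a basis of the Banach space `E`: every vector is the norm limit of the partial sums
`∑_{n < N} a n • x n` for exactly one sequence of scalars `a`. -/
def IsBasis (𝕜 E : Type) [RCLike 𝕜] [NormedAddCommGroup E] [NormedSpace 𝕜 E] (x : ℕ → E) : Prop :=
  ∀ y : E, ∃! a : ℕ → 𝕜, Tendsto (fun N => ∑ n ∈ Finset.range N, a n • x n) atTop (𝓝 y)

/-- `h` is a weak star basis of the dual of `E`: every functional is the weak star limit of the
partial sums `∑_{n < N} a n • h n` for exactly one sequence of scalars `a`. -/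
def IsWeakStarBasis (𝕜 E : Type) [RCLike 𝕜] [NormedAddCommGroup E] [NormedSpace 𝕜 E]
    (h : ℕ → WeakDual 𝕜 E) : Prop :=
  ∀ f : WeakDual 𝕜 E, ∃! a : ℕ → 𝕜,
    Tendsto (fun N => ∑ n ∈ Finset.range N, a n • h n) atTop (𝓝 f)

/-- `h` is a weak star Schauder basis of the dual of `E`: it is a weak star basis and, for each `m`,
the coefficient functional sending `f` to the `m`-th coefficient of its expansion is continuous for
the weak star topology. -/
def IsWeakStarSchauderBasis (𝕜 E : Type) [RCLike 𝕜] [NormedAddCommGroup E] [NormedSpace 𝕜 E]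
    (h : ℕ → WeakDual 𝕜 E) : Prop :=
  IsWeakStarBasis 𝕜 E h ∧ ∀ m : ℕ, ∃ c : WeakDual 𝕜 E → 𝕜, Continuous c ∧
    ∀ (f : WeakDual 𝕜 E) (a : ℕ → 𝕜),
      Tendsto (fun N => ∑ n ∈ Finset.range N, a n • h n) atTop (𝓝 f) → c f = a m

/-- The dual of `E` has a weak star basis, but `E` is not separable, `E` has no basis, and the dual of
`E` has no weak star Schauder basis. -/
def BasisGap (𝕜 E : Type) [RCLike 𝕜] [NormedAddCommGroup E] [NormedSpace 𝕜 E] : Prop :=
  (∃ h : ℕ → WeakDual 𝕜 E, IsWeakStarBasis 𝕜 E h) ∧ ¬ TopologicalSpace.SeparableSpace E ∧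
    (¬ ∃ x : ℕ → E, IsBasis 𝕜 E x) ∧ ¬ ∃ h : ℕ → WeakDual 𝕜 E, IsWeakStarSchauderBasis 𝕜 E h

theorem conclude {𝕜 E : Type} [RCLike 𝕜] [NormedAddCommGroup E] [NormedSpace 𝕜 E]
    (hs : ¬ TopologicalSpace.SeparableSpace E) (hw : WSB 𝕜 E) : BasisGap 𝕜 E := by
  obtain ⟨h, hh⟩ := hw
  refine ⟨⟨fun n => StrongDual.toWeakDual (h n), fun f => ?_⟩, hs, ?_, ?_⟩
  · obtain ⟨a, ha, huniq⟩ := hh (WeakDual.toStrongDual f)
    refine ⟨a, (tendsto_iff _ a f).2 ha, fun a' ha' => huniq a' ?_⟩
    exact (tendsto_iff _ a' f).1 ha'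
  · rintro ⟨x, hx⟩
    exact hs (separable_of_basis x hx)
  · rintro ⟨h', hh'⟩
    exact hs (separable_of_schauder h' hh')

/-- There is a separable compact Hausdorff space `K` such that the dual of the Banach space `C(K)`
has a weak star basis, but `C(K)` is not separable, has no basis, and `C(K)*` has no weak star
Schauder basis; all this holds for the real space and for the complex space. -/
theorem result :
    ∃ (K : Type) (_ : TopologicalSpace K) (_ : CompactSpace K) (_ : T2Space K),
      TopologicalSpace.SeparableSpace K ∧ BasisGap ℝ C(K, ℝ) ∧ BasisGap ℂ C(K, ℂ) := by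
  let _ : TopologicalSpace Pool.Agent.Helper499.WB.Nd := ⊥
  have : DiscreteTopology Pool.Agent.Helper499.WB.Nd := ⟨rfl⟩
  obtain ⟨e, he⟩ := Pool.Agent.Helper499.WB.exists_enum (T := Pool.Agent.Helper499.WB.Nd)
    Pool.Agent.Helper499.WB.DT.rk Pool.Agent.Helper499.WB.DT.fin
  have hΓ := Pool.Agent.Helper499.WB.Gam_uncountable
  have : Infinite Pool.Agent.Helper499.WB.Gam := by
    by_contra h
    rw [not_infinite_iff_finite] at h
    exact hΓ inferInstance
  have : Countable Pool.Agent.Helper499.WB.Nd := e.symm.injective.countable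
  have hcl := Alg_closed ℂ Pool.Agent.Helper499.WB.DT
  obtain ⟨⟨h1, h2⟩, h3, h4⟩ := exists_CK_real Pool.Agent.Helper499.WB.DT hΓ e
    (Pool.Agent.Helper499.WB.weakstar_basis _ Pool.Agent.Helper499.WB.DT_uniq e he)
  exact ⟨WeakDual.characterSpace ℂ (Alg ℂ Pool.Agent.Helper499.WB.DT), inferInstance,
    inferInstance, inferInstance, separable_characterSpace Pool.Agent.Helper499.WB.DT,
    conclude h3 h4, conclude h1 h2⟩

end Pool.Agent.Results.MP_906480_an.ContinuousFunctions
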